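import Pool.Agent.N805.VP.Fin2

set_option autoImplicit false

/-!
# MP_21f43f_nt: one-sided covering probabilities characterise the GUE statistics of the zeros

Assume the Riemann hypothesis. For a finite union `W` of bounded intervals let `Cover T W` be the
proportion of `[0, T]` covered by the translates of `-(2π / log T) W` by the ordinates up to `T`, that
is, the proportion of the `t` for which `t + (2π / log T) W` contains an ordinate. For GUE it is
`1 - det (1 - K_W)`. We prove, along any sequence of heights and for any `c > 0`: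

* all correlations of the zeros are those of GUE if and only if the covering proportions of all finite
  unions of intervals of total length at most `c` are asymptotically AT LEAST those of GUE;
* all correlations are those of GUE if and only if the covering proportions of these sets are
  asymptotically AT MOST those of GUE and pairs of zeros at small distance are rare (repulsion);
* then the covering proportions of all finite unions of intervals converge to those of GUE, and (for
  the full sequence of heights) the normalised gaps have the Gaudin distribution, which is Q1.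
-/

namespace Pool.Agent.Results.MP_21f43f_nt.CoveringProbabilities

open Filter MeasureTheory

/-- multiplicity of `s` as a zero of the Riemann zeta function (order of vanishing at `s`) -/
noncomputable def zmult (s : ℂ) : ℕ := analyticOrderNatAt riemannZeta s

/-- the number of nontrivial zeros of `ζ` with ordinate in `(0, t]`, with multiplicity -/
noncomputable def NZ (t : ℝ) : ℕ :=
  ∑ᶠ s ∈ {s : ℂ | riemannZeta s = 0 ∧ 0 < s.re ∧ s.re < 1 ∧ 0 < s.im ∧ s.im ≤ t}, zmult s

/-- for `n ≥ 1`: the `n`-th positive ordinate `γ n` of a nontrivial zero of `ζ`, the ordinates being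
listed in nondecreasing order and repeated according to multiplicity -/
noncomputable def γ (n : ℕ) : ℝ := sInf {t : ℝ | n ≤ NZ t}

/-- the normalised ordinate `(1 / 2π) γ_n log γ_n` -/
noncomputable def γt (n : ℕ) : ℝ := 1 / (2 * Real.pi) * γ n * Real.log (γ n)

/-- the normalised gap -/
noncomputable def δ (n : ℕ) : ℝ := γt (n + 1) - γt n

/-- `s(u) = sin(π u) / (π u)`, `s(0) = 1` -/
noncomputable def s (u : ℝ) : ℝ := Real.sinc (Real.pi * u)

/-- the Fredholm determinant `det (1 - K_W)` of the kernel `s (x - y)` on `L² (W)`: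
`∑ (-1)^k / k! ∫_{W^k} det (s (x_i - x_j)) dx` -/
noncomputable def Fred (W : Set ℝ) : ℝ :=
  ∑' k : ℕ, (-1) ^ k / (k.factorial : ℝ) * ∫ q in Set.pi Set.univ (fun _ : Fin k => W),
    Matrix.det (Matrix.of fun i j : Fin k => s (q i - q j))

/-- the Gaudin density `p(t) = d² / dt² det (1 - K_{[0, t)})` -/
noncomputable def p (t : ℝ) : ℝ := deriv (deriv fun u : ℝ => Fred (Set.Ico 0 u)) t

/-- Q1 -/
def Q1 : Prop := ∀ a b : ℝ, 0 ≤ a → a < b → Tendsto
  (fun N : ℕ => (1 / N : ℝ) * ({n : ℕ | 1 ≤ n ∧ n ≤ N ∧ δ n ∈ Set.Ioc a b}.ncard : ℝ)) atTop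
  (nhds (∫ t in a..b, p t))

/-- the number of tuples of distinct indices (one index `j none`, and one index `j (some i)` for each
`i`) with ordinates `≤ T` such that `(γ_{j (some i)} - γ_{j none}) log T / 2π ∈ [x_i, y_i]` for all `i` -/
noncomputable def N {ι : Type} (T : ℝ) (x y : ι → ℝ) : ℕ :=
  {j : Option ι → ℕ | Function.Injective j ∧ (∀ i, 1 ≤ j i ∧ γ (j i) ≤ T) ∧
    ∀ i : ι, (γ (j (some i)) - γ (j none)) * (Real.log T / (2 * Real.pi)) ∈
      Set.Icc (x i) (y i)}.ncard

/-- `(T / 2π) log T` -/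
noncomputable def X (T : ℝ) : ℝ := T / (2 * Real.pi) * Real.log T

/-- the `k + 1` points `0` and `u_i`, `i < k` -/
def pt {k : ℕ} (u : Fin k → ℝ) (o : Option (Fin k)) : ℝ := o.elim 0 u

/-- `∫ det (s (u_i - u_j)) du` over the box `∏ [x_i, y_i]`, `u_0 = 0` -/
noncomputable def I {k : ℕ} (x y : Fin k → ℝ) : ℝ :=
  ∫ u in Set.Icc x y, Matrix.det (Matrix.of fun i j : Option (Fin k) => s (pt u i - pt u j))

/-- the GUE conjecture along `l`: the correlations of `k + 1` zeros, for all `k ≥ 1`, are those of the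
sine kernel -/
def GUE (l : Filter ℝ) : Prop := ∀ k : ℕ, 1 ≤ k → ∀ x y : Fin k → ℝ, (∀ i, x i < y i) →
  Tendsto (fun T => (N T x y : ℝ) / X T) l (nhds (I x y))

/-- the proportion of the `t` (in units of `T`) such that `t + (2π / log T) W` contains an ordinate
`≤ T` -/
noncomputable def Cover (T : ℝ) (W : Set ℝ) : ℝ :=
  1 / T * volume.real {t : ℝ | ∃ n : ℕ, 1 ≤ n ∧ γ n ≤ T ∧
    (γ n - t) * (Real.log T / (2 * Real.pi)) ∈ W}

/-- the covering proportions of the unions of intervals of total length at most `c` are asymptotically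
at least those of GUE -/
def AtLeast (l : Filter ℝ) (c : ℝ) : Prop := ∀ (n : ℕ) (a b : Fin n → ℝ), (∀ i, a i < b i) →
  ∑ i, (b i - a i) ≤ c → ∀ ε : ℝ, 0 < ε → ∀ᶠ T in l,
    1 - Fred (⋃ i, Set.Ico (a i) (b i)) - ε ≤ Cover T (⋃ i, Set.Ico (a i) (b i))

/-- the covering proportions of the unions of intervals of total length at most `c` are asymptotically
at most those of GUE -/
def AtMost (l : Filter ℝ) (c : ℝ) : Prop := ∀ (n : ℕ) (a b : Fin n → ℝ), (∀ i, a i < b i) →
  ∑ i, (b i - a i) ≤ c → ∀ ε : ℝ, 0 < ε → ∀ᶠ T in l,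
    Cover T (⋃ i, Set.Ico (a i) (b i)) ≤ 1 - Fred (⋃ i, Set.Ico (a i) (b i)) + ε

/-- the number of ordered pairs of different zeros up to `T` at normalised distance at most `β` is
at most `κ β (T / 2π) log T`, for each `κ > 0`, if `β` is small and `T` is large -/
def Repulsion (l : Filter ℝ) : Prop := ∀ κ : ℝ, 0 < κ → ∃ β₀ : ℝ, 0 < β₀ ∧ ∀ β : ℝ, 0 < β →
  β ≤ β₀ → ∀ᶠ T in l, (N T (fun _ : Fin 1 => -β) (fun _ => β) : ℝ) / X T ≤ κ * β

theorem result (hRH : RiemannHypothesis) :
    (∀ l : Filter ℝ, l ≤ atTop → ∀ c : ℝ, 0 < c →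
      (GUE l ↔ AtLeast l c) ∧ (GUE l ↔ Repulsion l ∧ AtMost l c) ∧
      (GUE l → ∀ (n : ℕ) (a b : Fin n → ℝ), Tendsto (fun T => Cover T (⋃ i, Set.Ico (a i) (b i))) l
        (nhds (1 - Fred (⋃ i, Set.Ico (a i) (b i)))))) ∧
    (GUE atTop → Q1) := by
  classical
  have hpt : ∀ {k : ℕ} (u : Fin k → ℝ) (o : Option (Fin k)), pt u o = Pool.Agent.N805.DT.pt 0 u o := by
    intro k u o
    unfold pt Pool.Agent.N805.DT.pt
    cases o <;> simp
  have hI : ∀ {k : ℕ} (x y : Fin k → ℝ), I x y = Pool.Agent.N805.OS.I x y := by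
    intro k x y
    unfold I Pool.Agent.N805.OS.I
    simp_rw [hpt]
    rfl
  have hF : ∀ l, GUE l ↔ ∀ k : ℕ, 1 ≤ k → Pool.Agent.N805.OS.Full l k := by
    intro l
    unfold GUE Pool.Agent.N805.OS.Full
    simp_rw [hI]
    rfl
  refine ⟨fun l hl c hc => ?_, fun h => ?_⟩
  · have h := Pool.Agent.N805.VP.main2 hRH l hl c hc
    rw [hF]
    exact h
  · intro a b ha hab
    have h1 := Pool.Agent.N805.VP.main3 hRH ((hF atTop).1 h) ha hab
    have hδ : ∀ n, δ n = LG.dlt n := by
      intro n
      have e : ∀ m : ℕ, SG.ord m = γ m := fun m => rfl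
      unfold δ γt LG.dlt
      rw [e, e]
      ring
    have e2 : ∀ N : ℕ, {n : ℕ | 1 ≤ n ∧ n ≤ N ∧ δ n ∈ Set.Ioc a b}.ncard =
        ((Finset.Icc 1 N).filter fun n => LG.dlt n ∈ Set.Ioc a b).card := by
      intro N
      rw [← Set.ncard_coe_finset]
      congr 1
      ext n
      simp only [Set.mem_setOf_eq, Finset.coe_filter, Finset.mem_Icc, hδ]
      tauto
    simp_rw [e2]
    exact h1

end Pool.Agent.Results.MP_21f43f_nt.CoveringProbabilities
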