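import Pool.Agent.N748.UG.Big
import Pool.Agent.Results.MP_21f43f_nt.LargeGapsAlmostAllRuns
import Pool.Agent.Results.MP_21f43f_nt.SmallGapsAlmostAllRuns
import Pool.Agent.Results.MP_21f43f_nt.SmallGapsBohrSets
import Pool.Agent.Results.MP_21f43f_nt.UniversalitySmallGaps

/-!
# Large gaps next to the zeros where zeta imitates a given function, and in Bohr sets (under RH)

Assume the Riemann hypothesis. Let `S_ε` be the set of the real `t` with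
`sup_K |ζ(z + it) - f(z)| < ε`.

(1) For `ε' < ε` and `η > 0` there is a fixed `m` such that for all large `N`, for all but at most
`η N` of the indices `n ≤ N` with `γ_n ∈ S_ε'` there are `i, j < m` with `δ_{n+i} > 1.888`,
`δ_{n+j} < 0.6686` and `γ_{n+i}, γ_{n+j} ∈ S_ε`.

(2) For every admissible pair `(K, f)` a positive proportion of all `n` satisfies `δ_n > 1.888` and
`γ_n ∈ S_ε`.

(3) For rationally independent `α₁, …, α_k` and every nonempty open subset `U` of the torus, a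
positive proportion of all `n` satisfies `δ_n > 1.888` and `α γ_n mod 1 ∈ U`.
-/

open Filter Topology Complex MeasureTheory Set

namespace Pool.Agent.Results.MP_21f43f_nt.LargeGapsWhereZetaImitates

/-- multiplicity of `s` as a zero of the Riemann zeta function (order of vanishing at `s`) -/
noncomputable def zmult (s : ℂ) : ℕ := analyticOrderNatAt riemannZeta s

/-- the number of nontrivial zeros of `ζ` with ordinate in `(0, t]`, with multiplicity -/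
noncomputable def NZ (t : ℝ) : ℕ :=
  ∑ᶠ s ∈ {s : ℂ | riemannZeta s = 0 ∧ 0 < s.re ∧ s.re < 1 ∧ 0 < s.im ∧ s.im ≤ t}, zmult s

/-- for `n ≥ 1`: the `n`-th positive ordinate `γ n` of a nontrivial zero of `ζ`, the ordinates being
listed in nondecreasing order and repeated according to multiplicity -/
noncomputable def γ (n : ℕ) : ℝ := sInf {t : ℝ | n ≤ NZ t}

/-- the normalised gaps `δ_n = (γ_{n+1} log γ_{n+1} - γ_n log γ_n) / 2π` -/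
noncomputable def δ (n : ℕ) : ℝ :=
  (γ (n + 1) * Real.log (γ (n + 1)) - γ n * Real.log (γ n)) / (2 * Real.pi)

/-- `S_ε(K, f)`: the real `t` with `sup_{z ∈ K} |ζ(z + it) - f(z)| < ε`. -/
def S (ε : ℝ) (K : Set ℂ) (f : ℂ → ℂ) : Set ℝ :=
  {t : ℝ | ∃ δ < ε, ∀ z ∈ K, ‖riemannZeta (z + t * I) - f z‖ ≤ δ}

/-- `(K, f)` is admissible: `K` is a compact subset of the strip `1/2 < Re z < 1` with connected
complement, `f` is continuous on `K` and holomorphic without zeros in the interior of `K`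
(zeros on the boundary are allowed). -/
structure Admissible (K : Set ℂ) (f : ℂ → ℂ) : Prop where
  compact : IsCompact K
  strip : ∀ z ∈ K, 1 / 2 < z.re ∧ z.re < 1
  compl_connected : IsConnected Kᶜ
  cont : ContinuousOn f K
  hol : DifferentiableOn ℂ f (interior K)
  nonzero : ∀ z ∈ interior K, f z ≠ 0

/-- the point `α t mod 1` of the torus `(ℝ/ℤ)^k` -/
def pt {k : ℕ} (α : Fin k → ℝ) (t : ℝ) : UnitAddTorus (Fin k) :=
  fun j => ((α j * t : ℝ) : UnitAddCircle)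

lemma runs_large (RH : RiemannHypothesis) : N748.UG.Runs fun n => 1888 / 1000 < δ n := by
  intro ε hε
  obtain ⟨m, N0, h⟩ := LargeGapsAlmostAllRuns.result RH ε hε
  refine ⟨m, N0, fun N hN => le_trans (le_of_eq ?_) (h N hN)⟩
  have e : {n : ℕ | 1 ≤ n ∧ n ≤ N ∧ ∀ i < m, ¬ (1888 / 1000 < δ (n + i))} =
      {n : ℕ | 1 ≤ n ∧ n ≤ N ∧ ∀ i < m, LargeGapsAlmostAllRuns.δ (n + i) ≤ 1888 / 1000} := by
    ext n
    simp only [Set.mem_ofPred_eq, not_lt]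
    rfl
  rw [e]

lemma runs_small (RH : RiemannHypothesis) : N748.UG.Runs fun n => δ n < 6686 / 10000 := by
  intro ε hε
  obtain ⟨m, N0, h⟩ := SmallGapsAlmostAllRuns.result RH ε hε
  refine ⟨m, N0, fun N hN => le_trans (le_of_eq ?_) (h N hN)⟩
  have e : {n : ℕ | 1 ≤ n ∧ n ≤ N ∧ ∀ i < m, ¬ (δ (n + i) < 6686 / 10000)} =
      {n : ℕ | 1 ≤ n ∧ n ≤ N ∧ ∀ i < m, 6686 / 10000 ≤ SmallGapsAlmostAllRuns.δ (n + i)} := by
    ext n
    simp only [Set.mem_ofPred_eq, not_lt]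
    rfl
  rw [e]

lemma part1 (RH : RiemannHypothesis) (K : Set ℂ) (f : ℂ → ℂ) (hK : IsCompact K)
    (hKs : ∀ z ∈ K, 1 / 2 < z.re ∧ z.re < 1) (ε' ε η : ℝ) (hlt : ε' < ε) (hη : 0 < η) :
    ∃ m N₀ : ℕ, ∀ N : ℕ, N₀ ≤ N →
      ({n : ℕ | 1 ≤ n ∧ n ≤ N ∧ γ n ∈ S ε' K f ∧
        ¬ ((∃ i < m, 1888 / 1000 < δ (n + i) ∧ γ (n + i) ∈ S ε K f) ∧
          (∃ i < m, δ (n + i) < 6686 / 10000 ∧ γ (n + i) ∈ S ε K f))}.ncard : ℝ) ≤ η * N := by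
  have hst := N748.UG.stb_univ RH hK hKs f hlt
  obtain ⟨m1, N1, h1⟩ := N748.UG.runs_in (runs_large RH) hst (show 0 < η / 2 by positivity)
  obtain ⟨m2, N2, h2⟩ := N748.UG.runs_in (runs_small RH) hst (show 0 < η / 2 by positivity)
  refine ⟨max m1 m2, max N1 N2, fun N hN => ?_⟩
  have k1 := h1 N ((le_max_left _ _).trans hN)
  have k2 := h2 N ((le_max_right _ _).trans hN)
  have hsub : {n : ℕ | 1 ≤ n ∧ n ≤ N ∧ γ n ∈ S ε' K f ∧
        ¬ ((∃ i < max m1 m2, 1888 / 1000 < δ (n + i) ∧ γ (n + i) ∈ S ε K f) ∧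
          (∃ i < max m1 m2, δ (n + i) < 6686 / 10000 ∧ γ (n + i) ∈ S ε K f))} ⊆
      {n : ℕ | 1 ≤ n ∧ n ≤ N ∧ (γ n ∈ S ε' K f ∧
        ∀ i < m1, ¬ (1888 / 1000 < δ (n + i) ∧ γ (n + i) ∈ S ε K f))} ∪
      {n : ℕ | 1 ≤ n ∧ n ≤ N ∧ (γ n ∈ S ε' K f ∧
        ∀ i < m2, ¬ (δ (n + i) < 6686 / 10000 ∧ γ (n + i) ∈ S ε K f))} := by
    rintro n ⟨a1, a2, a3, a4⟩
    by_cases c : ∃ i < m1, 1888 / 1000 < δ (n + i) ∧ γ (n + i) ∈ S ε K f
    · refine Or.inr ⟨a1, a2, a3, fun i hi hc => a4 ⟨?_, i, lt_max_of_lt_right hi, hc⟩⟩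
      obtain ⟨j, hj, hc'⟩ := c
      exact ⟨j, lt_max_of_lt_left hj, hc'⟩
    · refine Or.inl ⟨a1, a2, a3, fun i hi hc => c ⟨i, hi, hc⟩⟩
  have hc := (Set.ncard_le_ncard hsub ((N748.UG.fin_le N _).union (N748.UG.fin_le N _))).trans
    (Set.ncard_union_le _ _)
  have hcr : ({n : ℕ | 1 ≤ n ∧ n ≤ N ∧ γ n ∈ S ε' K f ∧
        ¬ ((∃ i < max m1 m2, 1888 / 1000 < δ (n + i) ∧ γ (n + i) ∈ S ε K f) ∧
          (∃ i < max m1 m2, δ (n + i) < 6686 / 10000 ∧ γ (n + i) ∈ S ε K f))}.ncard : ℝ) ≤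
      ({n : ℕ | 1 ≤ n ∧ n ≤ N ∧ (γ n ∈ S ε' K f ∧
        ∀ i < m1, ¬ (1888 / 1000 < δ (n + i) ∧ γ (n + i) ∈ S ε K f))}.ncard : ℝ) +
      ({n : ℕ | 1 ≤ n ∧ n ≤ N ∧ (γ n ∈ S ε' K f ∧
        ∀ i < m2, ¬ (δ (n + i) < 6686 / 10000 ∧ γ (n + i) ∈ S ε K f))}.ncard : ℝ) := by
    exact_mod_cast hc
  have k1' : ({n : ℕ | 1 ≤ n ∧ n ≤ N ∧ (γ n ∈ S ε' K f ∧
        ∀ i < m1, ¬ (1888 / 1000 < δ (n + i) ∧ γ (n + i) ∈ S ε K f))}.ncard : ℝ) ≤ η / 2 * N := k1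
  have k2' : ({n : ℕ | 1 ≤ n ∧ n ≤ N ∧ (γ n ∈ S ε' K f ∧
        ∀ i < m2, ¬ (δ (n + i) < 6686 / 10000 ∧ γ (n + i) ∈ S ε K f))}.ncard : ℝ) ≤ η / 2 * N :=
    k2
  linarith

lemma part2 (RH : RiemannHypothesis) (K : Set ℂ) (f : ℂ → ℂ) (hKf : Admissible K f) (ε : ℝ)
    (hε : 0 < ε) : ∃ κ : ℝ, 0 < κ ∧ ∃ N₀ : ℕ, ∀ N : ℕ, N₀ ≤ N →
      κ * N ≤ ({n : ℕ | 1 ≤ n ∧ n ≤ N ∧ (1888 / 1000 < δ n ∧ γ n ∈ S ε K f)}.ncard : ℝ) := by
  obtain ⟨d, hd, N0, h0⟩ := (UniversalitySmallGaps.result RH).2 K f ⟨hKf.compact, hKf.strip,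
    hKf.compl_connected, hKf.cont, hKf.hol, hKf.nonzero⟩ (ε / 2) (half_pos hε)
  refine N748.UG.pos_in (runs_large RH)
    (N748.UG.stb_univ RH hKf.compact hKf.strip f (half_lt_self hε)) hd
    ⟨N0, fun N hN => (h0 N hN).trans ?_⟩
  refine Nat.cast_le.2 (Set.ncard_le_ncard ?_ (N748.UG.fin_le N _))
  rintro n ⟨a1, a2, -, a4⟩
  exact ⟨a1, a2, a4⟩

lemma part3 (RH : RiemannHypothesis) (k : ℕ) (α : Fin k → ℝ)
    (hα : ∀ n : Fin k → ℤ, ∑ j, (n j : ℝ) * α j = 0 → n = 0)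
    (U : Set (UnitAddTorus (Fin k))) (hU : IsOpen U) (hne : U.Nonempty) :
    ∃ κ : ℝ, 0 < κ ∧ ∃ N₀ : ℕ, ∀ N : ℕ, N₀ ≤ N →
      κ * N ≤ ({n : ℕ | 1 ≤ n ∧ n ≤ N ∧ (1888 / 1000 < δ n ∧ pt α (γ n) ∈ U)}.ncard : ℝ) := by
  obtain ⟨x, hx⟩ := hne
  obtain ⟨V, hVo, hxV, hVU⟩ := exists_mem_nhds_isClosed_subset (hU.mem_nhds hx)
  have hne2 : (interior V).Nonempty := ⟨x, mem_interior_iff_mem_nhds.2 hVo⟩
  have hcl : closure (interior V) ⊆ U := (closure_minimal interior_subset hxV).trans hVU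
  have hpos : 0 < (SmallGapsBohrSets.haar k (interior V)).toReal := by
    have e : SmallGapsBohrSets.haar k = TH803TW.haarT k := rfl
    rw [e]
    apply ENNReal.toReal_pos
    · have : Measure.IsOpenPosMeasure (TH803TW.haarT k) := by
        unfold TH803TW.haarT
        infer_instance
      exact (isOpen_interior.measure_pos _ hne2).ne'
    · exact measure_ne_top _ _
  obtain ⟨κ, hκ, h⟩ := SmallGapsBohrSets.result RH
  obtain ⟨N0, h0⟩ := h k α hα (interior V) isOpen_interior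
  refine N748.UG.pos_in (runs_large RH) (N748.UG.stb_bohr α hU hcl)
    (show 0 < κ * (SmallGapsBohrSets.haar k (interior V)).toReal ^ 2 by positivity)
    ⟨N0, fun N hN => (h0 N hN).trans ?_⟩
  refine Nat.cast_le.2 (Set.ncard_le_ncard ?_ (N748.UG.fin_le N _))
  rintro n ⟨a1, a2, a3, -⟩
  exact ⟨a1, a2, a3⟩

/-- On the Riemann hypothesis:
(1) for every compact `K` in the strip, every function `f`, all `ε' < ε` and `η > 0` there is `m`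
such that for all large `N`, for all but at most `η N` of the indices `n ≤ N` with
`γ_n ∈ S_ε'(K, f)` there are `i, j < m` with `δ_{n+i} > 1.888`, `δ_{n+j} < 0.6686` and
`γ_{n+i}, γ_{n+j} ∈ S_ε(K, f)`;
(2) for every admissible pair `(K, f)` and every `ε > 0`, a positive proportion of all indices `n`
satisfies `δ_n > 1.888` and `sup_K |ζ(z + iγ_n) - f(z)| < ε`;
(3) for rationally independent `α₁, …, α_k` and every nonempty open subset `U` of the torus, a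
positive proportion of all indices `n` satisfies `δ_n > 1.888` and `α γ_n mod 1 ∈ U`. -/
theorem result (RH : RiemannHypothesis) :
    (∀ (K : Set ℂ) (f : ℂ → ℂ), IsCompact K → (∀ z ∈ K, 1 / 2 < z.re ∧ z.re < 1) →
      ∀ ε' ε η : ℝ, ε' < ε → 0 < η → ∃ m N₀ : ℕ, ∀ N : ℕ, N₀ ≤ N →
        ({n : ℕ | 1 ≤ n ∧ n ≤ N ∧ γ n ∈ S ε' K f ∧
          ¬ ((∃ i < m, 1888 / 1000 < δ (n + i) ∧ γ (n + i) ∈ S ε K f) ∧
            (∃ i < m, δ (n + i) < 6686 / 10000 ∧ γ (n + i) ∈ S ε K f))}.ncard : ℝ) ≤ η * N) ∧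
    (∀ (K : Set ℂ) (f : ℂ → ℂ), Admissible K f → ∀ ε : ℝ, 0 < ε →
      ∃ κ : ℝ, 0 < κ ∧ ∃ N₀ : ℕ, ∀ N : ℕ, N₀ ≤ N →
        κ * N ≤ ({n : ℕ | 1 ≤ n ∧ n ≤ N ∧ (1888 / 1000 < δ n ∧ γ n ∈ S ε K f)}.ncard : ℝ)) ∧
    (∀ (k : ℕ) (α : Fin k → ℝ), (∀ n : Fin k → ℤ, ∑ j, (n j : ℝ) * α j = 0 → n = 0) →
      ∀ U : Set (UnitAddTorus (Fin k)), IsOpen U → U.Nonempty →
      ∃ κ : ℝ, 0 < κ ∧ ∃ N₀ : ℕ, ∀ N : ℕ, N₀ ≤ N →
        κ * N ≤ ({n : ℕ | 1 ≤ n ∧ n ≤ N ∧ (1888 / 1000 < δ n ∧ pt α (γ n) ∈ U)}.ncard : ℝ)) :=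
  ⟨part1 RH, part2 RH, part3 RH⟩

end Pool.Agent.Results.MP_21f43f_nt.LargeGapsWhereZetaImitates
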